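import Pool.Agent.H738R3.Terminal

set_option autoImplicit false

namespace Pool.Agent.Results.MP_a374b6_co.ThreeComponents

open Pool.Agent.Results.MP_a374b6_co.TwoComponents Pool.Agent.H738R3

variable {V : Type*} {G : SimpleGraph V}

section main

variable {ι : Type*} [DecidableEq ι] {M : ι → Set V}

/-- the main induction, for pseudo-nodes with at most three components -/
lemma good_part (hne : ∀ i, (M i).Nonempty) (hdisj : ∀ i j, i ≠ j → Disjoint (M i) (M j))
    (hconn : ∀ i j, i ≠ j → (G.induce (M i ∪ M j)).Connected) (m : ℕ) : ∀ (S : Finset ι)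
    (_ : S.card = m)
    (_ : ∀ i ∈ S, ∃ n, n ≤ 3 ∧ ∃ K : Fin n → Set V, Cp G (M i) n K),
    ∃ L : List (Set V), m - m / 3 ≤ L.length ∧
      L.Pairwise (fun X Y => Disjoint X Y ∧ Touch G X Y) ∧
      ∀ X ∈ L, X ⊆ (⋃ i ∈ S, M i) ∧ (G.induce X).Connected ∧ ∀ j, j ∉ S → Touch G X (M j) := by
  classical
  have hMM : ∀ k l, l ≠ k → Touch G (M k) (M l) := fun k l hkl =>
    cut (hconn k l hkl.symm).preconnected (hne k) (hne l) (hdisj k l hkl.symm)
  induction m using Nat.strong_induction_on with
  | _ m ih =>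
  intro S hS h2
  by_cases hno : ∀ i ∈ S, ∀ j ∈ S, ∀ k ∈ S, i ≠ j → i ≠ k → j ≠ k → ∀ A B : Set V,
      Disjoint A B → A ∪ B ⊆ M k → (G.induce (M i ∪ A)).Connected →
      ¬ (G.induce (M j ∪ B)).Connected
  · obtain ⟨L, h4, h5, h6⟩ := terminal3 hne hdisj hconn S h2 hno
    exact ⟨L, by rw [← hS]; exact h4, h5, h6⟩
  · push Not at hno
    obtain ⟨i, hi, j, hj, k, hk, hij, hik, hjk, A, B, hAB, hABM, hA, hB⟩ := hno
    set S' : Finset ι := ((S.erase i).erase j).erase k with hS'
    have hcard : S'.card = m - 3 ∧ 3 ≤ m := by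
      have h1 : (S.erase i).card = m - 1 := by rw [Finset.card_erase_of_mem hi, hS]
      have hj' : j ∈ S.erase i := Finset.mem_erase.mpr ⟨hij.symm, hj⟩
      have h2 : ((S.erase i).erase j).card = m - 2 := by
        rw [Finset.card_erase_of_mem hj', h1]; omega
      have hk' : k ∈ (S.erase i).erase j :=
        Finset.mem_erase.mpr ⟨hjk.symm, Finset.mem_erase.mpr ⟨hik.symm, hk⟩⟩
      have h3 : S'.card = m - 3 := by
        rw [hS', Finset.card_erase_of_mem hk', h2]; omega
      refine ⟨h3, ?_⟩
      have : ({i, j, k} : Finset ι) ⊆ S := by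
        intro x hx
        simp only [Finset.mem_insert, Finset.mem_singleton] at hx
        rcases hx with rfl | rfl | rfl <;> assumption
      have h4 := Finset.card_le_card this
      rw [Finset.card_eq_three.mpr ⟨i, j, k, hij, hik, hjk, rfl⟩, hS] at h4
      exact h4
    have hmem : ∀ x, x ∈ S' ↔ x ∈ S ∧ x ≠ i ∧ x ≠ j ∧ x ≠ k := by
      intro x
      simp only [hS', Finset.mem_erase]
      tauto
    obtain ⟨L, hL1, hL2, hL3⟩ := ih (m - 3) (by omega) S' hcard.1
      (fun x hx => h2 x ((hmem x).mp hx).1)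
    have hiS' : i ∉ S' := fun h => ((hmem i).mp h).2.1 rfl
    have hjS' : j ∉ S' := fun h => ((hmem j).mp h).2.2.1 rfl
    have hkS' : k ∉ S' := fun h => ((hmem k).mp h).2.2.2 rfl
    have hAk : A ⊆ M k := Set.subset_union_left.trans hABM
    have hBk : B ⊆ M k := Set.subset_union_right.trans hABM
    have hdU : ∀ x, x ∉ S' → Disjoint (M x) (⋃ i ∈ S', M i) := by
      intro x hx
      rw [Set.disjoint_iUnion₂_right]
      intro y hy
      exact hdisj x y (fun e => hx (e ▸ hy))
    refine ⟨(M i ∪ A) :: (M j ∪ B) :: L, ?_, ?_, ?_⟩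
    · simp only [List.length_cons]
      have := hcard.2
      omega
    · rw [List.pairwise_cons, List.pairwise_cons]
      refine ⟨?_, ?_, hL2⟩
      · intro X hX
        rw [List.mem_cons] at hX
        rcases hX with rfl | hX
        · refine ⟨?_, (hMM i j hij.symm).mono Set.subset_union_left Set.subset_union_left⟩
          rw [Set.disjoint_union_left, Set.disjoint_union_right, Set.disjoint_union_right]
          exact ⟨⟨hdisj i j hij, (hdisj i k hik).mono_right hBk⟩,
            ((hdisj j k hjk).mono_right hAk).symm, hAB⟩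
        · obtain ⟨hX1, hX2, hX3⟩ := hL3 X hX
          refine ⟨?_, (hX3 i hiS').symm.mono Set.subset_union_left (Set.Subset.refl _)⟩
          apply Disjoint.mono_right hX1
          rw [Set.disjoint_union_left]
          exact ⟨hdU i hiS', (hdU k hkS').mono_left hAk⟩
      · intro X hX
        obtain ⟨hX1, hX2, hX3⟩ := hL3 X hX
        refine ⟨?_, (hX3 j hjS').symm.mono Set.subset_union_left (Set.Subset.refl _)⟩
        apply Disjoint.mono_right hX1
        rw [Set.disjoint_union_left]
        exact ⟨hdU j hjS', (hdU k hkS').mono_left hBk⟩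
    · have hsub : ∀ x ∈ S, M x ⊆ ⋃ i ∈ S, M i := fun x hx =>
        Set.subset_biUnion_of_mem (u := M) (Finset.mem_coe.mpr hx)
      intro X hX
      rw [List.mem_cons, List.mem_cons] at hX
      rcases hX with rfl | rfl | hX
      · refine ⟨Set.union_subset (hsub i hi) (hAk.trans (hsub k hk)), hA, fun l hl => ?_⟩
        exact (hMM i l (fun e => hl (e ▸ hi))).mono Set.subset_union_left (Set.Subset.refl _)
      · refine ⟨Set.union_subset (hsub j hj) (hBk.trans (hsub k hk)), hB, fun l hl => ?_⟩
        exact (hMM j l (fun e => hl (e ▸ hj))).mono Set.subset_union_left (Set.Subset.refl _)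
      · obtain ⟨hX1, hX2, hX3⟩ := hL3 X hX
        refine ⟨hX1.trans ?_, hX2, fun l hl => hX3 l (fun h => hl ((hmem l).mp h).1)⟩
        intro v hv
        simp only [Set.mem_iUnion] at hv ⊢
        obtain ⟨y, hy, hvy⟩ := hv
        exact ⟨y, ((hmem y).mp hy).1, hvy⟩

end main

/-- `G[X]` has at most three connected components. -/
def AtMostThreeComponents (G : SimpleGraph V) (X : Set V) : Prop :=
  ∃ A B C : Set V, X = A ∪ B ∪ C ∧ (G.induce A).Preconnected ∧ (G.induce B).Preconnected ∧
    (G.induce C).Preconnected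

/-- If `s` of the `n` pseudo-nodes of a clique pseudo-minor of order `n` have at most three
components, then there is a clique minor of order `⌈2 s / 3⌉ + ⌊(n - s) / 2⌋`. In particular
(`S = Finset.univ`) if all the pseudo-nodes have at most three components, then there is a clique
minor of order `⌈2 n / 3⌉`. -/
theorem result (V : Type*) (G : SimpleGraph V) (n : ℕ) (M : Fin n → Set V)
    (hM : IsCliquePseudoMinor G n M) (S : Finset (Fin n))
    (hS : ∀ i ∈ S, AtMostThreeComponents G (M i)) :
    HasCliqueMinor G (⌈(2 * S.card : ℚ) / 3⌉₊ + ⌊((n - S.card : ℕ) : ℚ) / 2⌋₊) := by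
  classical
  obtain ⟨L, hL1, hL2, hL3⟩ := good_part hM.nonempty hM.disjoint hM.connected S.card S rfl
    (fun i hi => by
      obtain ⟨A, B, C, hABC, hA, hB, hC⟩ := hS i hi
      exact exists_cp hABC hA hB hC)
  obtain ⟨L', hL1', hL2', hL3'⟩ := pair_part hM.nonempty hM.disjoint hM.connected
    (Sᶜ).card (Sᶜ) rfl
  apply hasCliqueMinor_of_list _ (L ++ L')
  · rw [List.length_append]
    apply Nat.add_le_add
    · refine le_trans ?_ hL1
      rw [Nat.ceil_le]
      have h3 : 3 * (S.card - S.card / 3) ≥ 2 * S.card := by omega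
      have h4 : (2 * S.card : ℚ) ≤ 3 * ((S.card - S.card / 3 : ℕ) : ℚ) := by exact_mod_cast h3
      linarith
    · refine le_trans ?_ hL1'
      rw [Finset.card_compl, Fintype.card_fin]
      have : ((n - S.card : ℕ) : ℚ) / 2 = ((n - S.card : ℕ) : ℚ) / ((2 : ℕ) : ℚ) := by norm_num
      rw [this, Nat.floor_div_natCast, Nat.floor_natCast]
  · rw [List.pairwise_append]
    refine ⟨hL2, hL2', fun X hX Y hY => ?_⟩
    obtain ⟨hX1, hX2, hX3⟩ := hL3 X hX
    obtain ⟨hY1, hY2, l, hl, hlY⟩ := hL3' Y hY
    refine ⟨?_, (hX3 l (Finset.mem_compl.mp hl)).mono (Set.Subset.refl _) hlY⟩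
    apply Disjoint.mono hX1 hY1
    rw [Set.disjoint_iUnion₂_left]
    intro x hx
    rw [Set.disjoint_iUnion₂_right]
    intro y hy
    exact hM.disjoint x y (fun e => (Finset.mem_compl.mp hy) (e ▸ hx))
  · intro X hX
    rcases List.mem_append.mp hX with h | h
    · exact (hL3 X h).2.1
    · exact (hL3' X h).2.1

end Pool.Agent.Results.MP_a374b6_co.ThreeComponents
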